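import Pool.Agent.Work.MP_f35e27_co.Growth

/-!
# Q1: polynomial Erdős–Rogers functions and iterated blowups
-/

open Pool.Agent.Work.MP_f35e27_co Pool.Agent.Work.MP_f35e27_co.RGraph

namespace Pool.Agent.Results.MP_f35e27_co.IteratedBlowups

/-- **Affirmative answer to Q1.** For all `r ≥ 2` and all `r`-graphs `F` and `G`: if
`f_{F,G}(n) ≥ n ^ c` for some constant `c > 0` and all sufficiently large `n` then `G` is a subgraph
of an `F`-iterated blowup. -/
theorem result (r : ℕ) (hr : 2 ≤ r) (V W : Type) [Finite V] [Finite W] (F : RGraph r W)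
    (G : RGraph r V) (hgrowth : PolynomialGrowth F G) : SubIteratedBlowup F G := by
  have := Fintype.ofFinite V
  have := Fintype.ofFinite W
  exact sub_of_growth hr F G hgrowth

end Pool.Agent.Results.MP_f35e27_co.IteratedBlowups
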